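import Mathlib
import Pool.Agent.Q117.Met.Core

/-!
# Distributive varieties of Lie algebras which need identities of large degree

Over every field of characteristic zero and for every `n` the variety `V` of all metabelian Lie
algebras which are nilpotent of class at most `n` has a distributive lattice of subvarieties (the
subvarieties form a chain), but it is not defined by identities of degree at most `n`.
-/

set_option autoImplicit false

namespace Pool.Agent.Results.MP_b4a71d_al.NilpotentMetabelian

open Pool.Agent.Q117.Met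

universe u

/-! ## Definitions -/

/-- Classes of Lie algebras over `F`. -/
abbrev LieClass (F : Type u) [Field F] : Type (u + 1) :=
  ∀ (A : Type u) [LieRing A] [LieAlgebra F A], Prop

section Defs

variable (F : Type u) [Field F]

/-- The Lie algebra `A` satisfies all identities of the set `S` of elements of the free Lie
algebra on `x_0, x_1, …`. -/
def Satisfies (S : Set (FreeLieAlgebra F ℕ)) : LieClass F :=
  fun A _ _ => ∀ f ∈ S, ∀ a : ℕ → A, FreeLieAlgebra.lift F a f = 0

/-- Varieties: the classes defined by sets of identities. -/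
def IsVariety (V : LieClass F) : Prop :=
  ∃ S : Set (FreeLieAlgebra F ℕ), ∀ (A : Type u) [LieRing A] [LieAlgebra F A],
    V A ↔ Satisfies F S A

/-- Inclusion of classes. -/
def Le (V W : LieClass F) : Prop := ∀ (A : Type u) [LieRing A] [LieAlgebra F A], V A → W A

/-- The intersection of two classes. -/
def meet (V W : LieClass F) : LieClass F := fun A _ _ => V A ∧ W A

/-- The smallest variety containing both classes. -/
def join (V W : LieClass F) : LieClass F :=
  fun A _ _ => ∀ U : LieClass F, IsVariety F U → Le F V U → Le F W U → U A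

/-- The lattice of subvarieties of `V` is distributive. -/
def Distributive (V : LieClass F) : Prop :=
  ∀ X Y Z : LieClass F, IsVariety F X → IsVariety F Y → IsVariety F Z →
    Le F X V → Le F Y V → Le F Z V →
    ∀ (A : Type u) [LieRing A] [LieAlgebra F A],
      meet F X (join F Y Z) A ↔ join F (meet F X Y) (meet F X Z) A

/-- The element of the free Lie algebra given by a nonassociative word. -/
noncomputable def word (w : FreeMagma ℕ) : FreeLieAlgebra F ℕ := ev (FreeLieAlgebra.of F) w

/-- The elements of the free Lie algebra of degree at most `n` (and zero): the span of the words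
of length at most `n`. -/
noncomputable def DegLE (n : ℕ) : Submodule F (FreeLieAlgebra F ℕ) :=
  Submodule.span F {g | ∃ w : FreeMagma ℕ, w.length ≤ n ∧ word F w = g}

end Defs

/-! ## The free Lie algebra -/

section Free

variable {F : Type u} [Field F]

theorem lift_word {A : Type u} [LieRing A] [LieAlgebra F A] (a : ℕ → A) (w : FreeMagma ℕ) :
    FreeLieAlgebra.lift F a (word F w) = ev a w := by
  induction w using FreeMagma.rec with
  | of i => exact FreeLieAlgebra.lift_of_apply _ _
  | mul x y hx hy =>
    show FreeLieAlgebra.lift F a ⁅word F x, word F y⁆ = ⁅ev a x, ev a y⁆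
    rw [LieHom.map_lie, hx, hy]

theorem lie_mem_span {x y : FreeLieAlgebra F ℕ}
    (hx : x ∈ Submodule.span F (Set.range (word F)))
    (hy : y ∈ Submodule.span F (Set.range (word F))) :
    ⁅x, y⁆ ∈ Submodule.span F (Set.range (word F)) := by
  induction hx, hy using Submodule.span_induction₂ with
  | mem_mem x y hx hy =>
    obtain ⟨w, rfl⟩ := hx
    obtain ⟨w', rfl⟩ := hy
    exact Submodule.subset_span ⟨w * w', rfl⟩
  | zero_left y hy => rw [zero_lie]; exact Submodule.zero_mem _
  | zero_right x hx => rw [lie_zero]; exact Submodule.zero_mem _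
  | add_left x y z hx' hy' hz' hx hy =>
    rw [add_lie]; exact Submodule.add_mem _ hx hy
  | add_right x y z hx' hy' hz' hx hy =>
    rw [lie_add]; exact Submodule.add_mem _ hx hy
  | smul_left c x y hx' hy' hx => rw [smul_lie]; exact Submodule.smul_mem _ _ hx
  | smul_right c x y hx' hy' hx => rw [lie_smul]; exact Submodule.smul_mem _ _ hx

/-- The span of the words, a Lie subalgebra. -/
noncomputable def spanWords (F : Type u) [Field F] : LieSubalgebra F (FreeLieAlgebra F ℕ) :=
  { Submodule.span F (Set.range (word F)) with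
    lie_mem' := fun hx hy => lie_mem_span hx hy }


theorem mem_spanWords (f : FreeLieAlgebra F ℕ) : f ∈ Submodule.span F (Set.range (word F)) := by
  let φ : FreeLieAlgebra F ℕ →ₗ⁅F⁆ spanWords F :=
    FreeLieAlgebra.lift F fun i => ⟨FreeLieAlgebra.of F i, Submodule.subset_span ⟨.of i, rfl⟩⟩
  have h : (spanWords F).incl.comp φ = LieHom.id := by
    apply FreeLieAlgebra.hom_ext
    intro i
    show ((φ (FreeLieAlgebra.of F i) : spanWords F) : FreeLieAlgebra F ℕ) = _
    rw [FreeLieAlgebra.lift_of_apply]
    rfl
  have h2 : ((φ f : spanWords F) : FreeLieAlgebra F ℕ) = f := by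
    have := congrArg (fun g : FreeLieAlgebra F ℕ →ₗ⁅F⁆ FreeLieAlgebra F ℕ => g f) h
    exact this
  rw [← h2]
  exact (φ f).2

theorem exists_repr (f : FreeLieAlgebra F ℕ) :
    ∃ c : FreeMagma ℕ →₀ F, Finsupp.linearCombination F (word F) c = f := by
  have := mem_spanWords f
  rwa [← Finsupp.range_linearCombination] at this

theorem exists_repr_le (n : ℕ) (f : FreeLieAlgebra F ℕ) (hf : f ∈ DegLE F n) :
    ∃ c : FreeMagma ℕ →₀ F, Finsupp.linearCombination F (word F) c = f ∧
      ∀ w ∈ c.support, w.length ≤ n := by
  have e : {g | ∃ w : FreeMagma ℕ, w.length ≤ n ∧ word F w = g} =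
      word F '' {w | w.length ≤ n} := rfl
  rw [DegLE, e, Finsupp.mem_span_image_iff_linearCombination] at hf
  obtain ⟨c, hc, h⟩ := hf
  exact ⟨c, h, fun w hw => hc hw⟩

theorem lift_repr {A : Type u} [LieRing A] [LieAlgebra F A] (a : ℕ → A) (c : FreeMagma ℕ →₀ F) :
    FreeLieAlgebra.lift F a (Finsupp.linearCombination F (word F) c) =
      ∑ w ∈ c.support, c w • ev a w := by
  rw [Finsupp.linearCombination_apply, Finsupp.sum]
  have : ∀ g : FreeLieAlgebra F ℕ, FreeLieAlgebra.lift F a g =
    ((FreeLieAlgebra.lift F a : FreeLieAlgebra F ℕ →ₗ⁅F⁆ A) : FreeLieAlgebra F ℕ →ₗ[F] A) g :=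
    fun g => rfl
  rw [this, map_sum]
  refine Finset.sum_congr rfl fun w _ => ?_
  rw [map_smul, ← this, lift_word]

/-- If the first order parts of all components of degree at most `d` vanish, then we get an
identity of the metabelian algebras in which the words of length greater than `d` vanish. -/
theorem eval_eq_zero [Infinite F] {A : Type u} [LieRing A] [LieAlgebra F A] (hA : Metab A)
    (c : FreeMagma ℕ →₀ F) (d : ℕ)
    (h : ∀ e, e ≤ d → ∀ s r : ℕ → F, ∑ w ∈ c.support with w.length = e, c w * del s r w = 0)
    (a : ℕ → A) (h' : ∀ w ∈ c.support, d < w.length → ev a w = 0) :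
    ∑ w ∈ c.support, c w • ev a w = 0 := by
  classical
  rw [← Finset.sum_fiberwise_of_maps_to (t := c.support.image FreeMagma.length)
    (g := FreeMagma.length) (fun w hw => Finset.mem_image_of_mem _ hw)]
  apply Finset.sum_eq_zero
  intro e _
  by_cases he : e ≤ d
  · exact component_eq_zero hA c e (h e he) a
  · apply Finset.sum_eq_zero
    intro w hw
    rw [Finset.mem_filter] at hw
    rw [h' w hw.1 (by omega), smul_zero]

/-- An identity with a nonzero first order part of degree `e` implies the `(e-1)`-Engel
identity. -/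
theorem engel [Infinite F] {B : Type u} [LieRing B] [LieAlgebra F B] (c : FreeMagma ℕ →₀ F)
    (h : ∀ a : ℕ → B, (∑ w ∈ c.support, c w • ev a w) = 0) (s r : ℕ → F) (e : ℕ)
    (he : (∑ w ∈ c.support with w.length = e, c w * del s r w) ≠ 0) :
    1 ≤ e ∧ ∀ b y : B, it F b (e - 1) y = 0 := by
  have he1 : 1 ≤ e := by
    by_contra h0
    apply he
    apply Finset.sum_eq_zero
    intro w hw
    rw [Finset.mem_filter] at hw
    have := length_pos w
    omega
  refine ⟨he1, fun b y => ?_⟩
  apply engel_of_identity c h s r (e - 1)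
  have e1 : (c.support.filter fun w => w.length - 1 = e - 1) =
      c.support.filter fun w => w.length = e := by
    apply Finset.filter_congr
    intro w _
    have := length_pos w
    omega
  rw [e1]
  exact he

end Free

/-! ## The varieties of metabelian algebras of bounded class -/

section Var

variable (F : Type u) [Field F]

/-- The metabelian Lie algebras in which all words of length greater than `n` vanish. -/
def NM (n : ℕ) : LieClass F :=
  fun A _ _ => Metab A ∧ ∀ w : FreeMagma ℕ, n < w.length → ∀ a : ℕ → A, ev a w = 0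

theorem isVariety_NM (n : ℕ) : IsVariety F (NM F n) := by
  refine ⟨{word F ((.of 0 * .of 1) * (.of 2 * .of 3))} ∪ {g | ∃ w : FreeMagma ℕ, n < w.length ∧
    word F w = g}, fun A _ _ => ?_⟩
  constructor
  · rintro ⟨h1, h2⟩ f hf a
    rcases hf with hf | ⟨w, hw, rfl⟩
    · rw [Set.mem_singleton_iff] at hf
      rw [hf, lift_word]
      exact h1 _ _ _ _
    · rw [lift_word]
      exact h2 w hw a
  · intro h
    refine ⟨?_, ?_⟩
    · intro x y z t
      have h1 := h _ (Or.inl rfl) (fun i => if i = 0 then x else if i = 1 then y else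
        if i = 2 then z else t)
      rw [lift_word] at h1
      exact h1
    · intro w hw a
      have h1 := h _ (Or.inr ⟨w, hw, rfl⟩) a
      rwa [lift_word] at h1

theorem NM_mono {m n : ℕ} (h : m ≤ n) : Le F (NM F m) (NM F n) :=
  fun _ _ _ hA => ⟨hA.1, fun w hw a => hA.2 w (lt_of_le_of_lt h hw) a⟩

theorem variety_eq_NM [CharZero F] (C : LieClass F) (hC : IsVariety F C) (n : ℕ)
    (h : Le F C (NM F n)) : ∃ d, ∀ (A : Type u) [LieRing A] [LieAlgebra F A], C A ↔ NM F d A := by
  classical
  have hex : ∃ d, Le F C (NM F d) := ⟨n, h⟩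
  obtain ⟨S, hS⟩ := hC
  refine ⟨Nat.find hex, fun A _ _ => ⟨fun hA => Nat.find_spec hex A hA, fun hA => ?_⟩⟩
  rw [hS]
  intro f hf a
  obtain ⟨c, rfl⟩ := exists_repr f
  rw [lift_repr]
  apply eval_eq_zero hA.1 c (Nat.find hex)
  · intro e he s r
    by_contra hne
    have hB : ∀ (B : Type u) [LieRing B] [LieAlgebra F B], C B →
        1 ≤ e ∧ ∀ b y : B, it F b (e - 1) y = 0 := by
      intro B _ _ hB
      apply engel c _ s r e hne
      intro a
      have := (hS B).1 hB _ hf a
      rwa [lift_repr] at this
    have he1 : 1 ≤ e := by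
      by_contra h0
      apply hne
      apply Finset.sum_eq_zero
      intro w hw
      rw [Finset.mem_filter] at hw
      have := length_pos w
      omega
    apply Nat.find_min hex (m := e - 1) (by omega)
    intro B _ _ hCB
    have hM : Metab B := (h B hCB).1
    exact ⟨hM, fun w hw a => ev_eq_zero_of_engel (F := F) hM (e - 1) (hB B hCB).2 a w hw⟩
  · intro w _ hw
    exact hA.2 w hw a

theorem distributive_NM [CharZero F] (n : ℕ) : Distributive F (NM F n) := by
  intro X Y Z hX hY hZ hXn hYn hZn A _ _
  obtain ⟨y, hy⟩ := variety_eq_NM F Y hY n hYn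
  obtain ⟨z, hz⟩ := variety_eq_NM F Z hZ n hZn
  obtain ⟨SX, hSX⟩ := hX
  obtain ⟨SY, hSY⟩ := hY
  obtain ⟨SZ, hSZ⟩ := hZ
  constructor
  · rintro ⟨hAX, hAj⟩ U hU h1 h2
    rcases le_total y z with hyz | hyz
    · have hAZ : Z A := by
        apply hAj Z ⟨SZ, hSZ⟩
        · intro B _ _ hB
          exact (hz B).2 (NM_mono F hyz B ((hy B).1 hB))
        · intro B _ _ hB
          exact hB
      exact h2 A ⟨hAX, hAZ⟩
    · have hAY : Y A := by
        apply hAj Y ⟨SY, hSY⟩
        · intro B _ _ hB
          exact hB
        · intro B _ _ hB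
          exact (hy B).2 (NM_mono F hyz B ((hz B).1 hB))
      exact h1 A ⟨hAX, hAY⟩
  · intro hA
    refine ⟨?_, ?_⟩
    · exact hA X ⟨SX, hSX⟩ (fun B _ _ hB => hB.1) (fun B _ _ hB => hB.1)
    · intro U hU h1 h2
      exact hA U hU (fun B _ _ hB => h1 B hB.2) (fun B _ _ hB => h2 B hB.2)

end Var

/-! ## Two examples of metabelian algebras -/

section Wr

/-- The Lie algebra `F × M` with the product `[(α, x), (β, y)] = (0, T(α y - β x))`. -/
def Wr (F M : Type u) [Field F] [AddCommGroup M] [Module F M] (_T : Module.End F M) : Type u :=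
  F × M

variable {F M : Type u} [Field F] [AddCommGroup M] [Module F M] (T : Module.End F M)

instance : AddCommGroup (Wr F M T) := inferInstanceAs (AddCommGroup (F × M))

instance : Module F (Wr F M T) := inferInstanceAs (Module F (F × M))

/-- The element `(α, m)`. -/
def Wr.mk (α : F) (m : M) : Wr F M T := (α, m)

variable {T}

/-- The first component. -/
def Wr.fst (x : Wr F M T) : F := Prod.fst x

/-- The second component. -/
def Wr.snd (x : Wr F M T) : M := Prod.snd x

theorem Wr.ext {x y : Wr F M T} (h : x.fst = y.fst) (h' : x.snd = y.snd) : x = y := Prod.ext h h'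

theorem Wr.fst_mk (α : F) (m : M) : (Wr.mk T α m).fst = α := rfl
theorem Wr.snd_mk (α : F) (m : M) : (Wr.mk T α m).snd = m := rfl
theorem Wr.fst_add (x y : Wr F M T) : (x + y).fst = x.fst + y.fst := rfl
theorem Wr.snd_add (x y : Wr F M T) : (x + y).snd = x.snd + y.snd := rfl
theorem Wr.fst_smul (c : F) (x : Wr F M T) : (c • x).fst = c * x.fst := rfl
theorem Wr.snd_smul (c : F) (x : Wr F M T) : (c • x).snd = c • x.snd := rfl
theorem Wr.fst_zero : (0 : Wr F M T).fst = 0 := rfl
theorem Wr.snd_zero : (0 : Wr F M T).snd = 0 := rfl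

instance : Bracket (Wr F M T) (Wr F M T) :=
  ⟨fun x y => Wr.mk T (0 : F) (T (x.fst • y.snd - y.fst • x.snd))⟩

theorem Wr.fst_lie (x y : Wr F M T) : ⁅x, y⁆.fst = 0 := rfl
theorem Wr.snd_lie (x y : Wr F M T) : ⁅x, y⁆.snd = T (x.fst • y.snd - y.fst • x.snd) := rfl

instance : LieRing (Wr F M T) where
  add_lie x y z := by
    apply Wr.ext
    · simp only [Wr.fst_lie, Wr.fst_add, add_zero]
    · simp only [Wr.snd_lie, Wr.fst_add, Wr.snd_add]
      rw [← map_add]
      congr 1
      module
  lie_add x y z := by
    apply Wr.ext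
    · simp only [Wr.fst_lie, Wr.fst_add, add_zero]
    · simp only [Wr.snd_lie, Wr.fst_add, Wr.snd_add]
      rw [← map_add]
      congr 1
      module
  lie_self x := by
    apply Wr.ext
    · rfl
    · rw [Wr.snd_lie, sub_self, map_zero, Wr.snd_zero]
  leibniz_lie x y z := by
    apply Wr.ext
    · simp only [Wr.fst_lie, Wr.fst_add, add_zero]
    · simp only [Wr.snd_lie, Wr.fst_lie, Wr.snd_add, zero_smul, sub_zero, zero_sub]
      rw [← map_add]
      congr 1
      simp only [map_sub, map_smul]
      module

instance : LieAlgebra F (Wr F M T) where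
  lie_smul t x y := by
    apply Wr.ext
    · simp only [Wr.fst_lie, Wr.fst_smul, mul_zero]
    · simp only [Wr.snd_lie, Wr.fst_smul, Wr.snd_smul]
      rw [← map_smul]
      congr 1
      module

theorem Wr.metab : Metab (Wr F M T) := by
  intro a b c d
  apply Wr.ext
  · rfl
  · rw [Wr.snd_lie, Wr.fst_lie, Wr.fst_lie]
    simp [Wr.snd_zero]

theorem Wr.fst_it (x y : Wr F M T) (n : ℕ) : (it F x (n + 1) y).fst = 0 := by
  rw [it_succ, Wr.fst_lie]

theorem Wr.snd_it (x y : Wr F M T) (n : ℕ) :
    (it F x (n + 1) y).snd = (x.fst ^ n) • (T ^ (n + 1)) (x.fst • y.snd - y.fst • x.snd) := by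
  induction n with
  | zero =>
    rw [it_succ, it_zero, Wr.snd_lie]
    simp
  | succ n ih =>
    rw [it_succ, Wr.snd_lie, ih, Wr.fst_it, zero_smul, sub_zero, smul_smul, map_smul,
      ← pow_succ', pow_succ' T (n + 1)]
    rfl

/-- The truncated shift. -/
def shift (F : Type u) [Field F] (n : ℕ) : Module.End F (ℕ → F) where
  toFun x i := if i + 1 < n then x (i + 1) else 0
  map_add' x y := by
    funext i
    by_cases h : i + 1 < n <;> simp [h]
  map_smul' c x := by
    funext i
    by_cases h : i + 1 < n <;> simp [h]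

theorem shift_pow (n k : ℕ) (x : ℕ → F) (i : ℕ) :
    ((shift F n) ^ (k + 1)) x i = if i + (k + 1) < n then x (i + (k + 1)) else 0 := by
  induction k generalizing i with
  | zero => rfl
  | succ k ih =>
    rw [pow_succ']
    show (if i + 1 < n then ((shift F n) ^ (k + 1)) x (i + 1) else 0) = _
    rw [ih]
    have e : i + 1 + (k + 1) = i + (k + 1 + 1) := by ring
    rw [e]
    by_cases h : i + (k + 1 + 1) < n
    · rw [if_pos h, if_pos (by omega)]
    · rw [if_neg h]
      split_ifs <;> rfl

end Wr

/-- Over every field of characteristic zero and for every `n` there is a variety of Lie algebras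
whose lattice of subvarieties is distributive, and which is not defined by identities of degree at
most `n`. -/
theorem result (F : Type u) [Field F] [CharZero F] (n : ℕ) :
    ∃ V : LieClass F, IsVariety F V ∧ Distributive F V ∧
      ¬ ∃ S : Set (FreeLieAlgebra F ℕ), (∀ f ∈ S, f ∈ DegLE F n) ∧
        ∀ (A : Type u) [LieRing A] [LieAlgebra F A], V A ↔ Satisfies F S A := by
  refine ⟨NM F n, isVariety_NM F n, distributive_NM F n, ?_⟩
  rintro ⟨S, hS, hV⟩
  -- the two-dimensional nonabelian algebra satisfies `S`
  have hW : Satisfies F S (Wr F F LinearMap.id) := by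
    intro f hf a
    obtain ⟨c, rfl, hc⟩ := exists_repr_le n f (hS f hf)
    rw [lift_repr]
    apply eval_eq_zero Wr.metab c n
    · intro e he s r
      by_contra hne
      -- the nilpotent algebra of class `n`
      have hB : NM F n (Wr F (ℕ → F) (shift F n)) := by
        have he1 : 1 ≤ e := by
          by_contra h0
          apply hne
          apply Finset.sum_eq_zero
          intro w hw
          rw [Finset.mem_filter] at hw
          have := length_pos w
          omega
        obtain ⟨m, rfl⟩ : ∃ m, n = m + 1 := ⟨n - 1, by omega⟩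
        refine ⟨Wr.metab, fun w hw a => ?_⟩
        apply ev_eq_zero_of_engel (F := F) Wr.metab (m + 1) _ a w hw
        intro b y
        apply Wr.ext
        · rw [Wr.fst_it, Wr.fst_zero]
        · rw [Wr.snd_it, Wr.snd_zero]
          funext i
          rw [Pi.smul_apply, shift_pow, if_neg (by omega), smul_zero]
          rfl
      have h1 := (hV _).1 hB _ hf
      have h2 := engel (B := Wr F (ℕ → F) (shift F n)) c (by
        intro a
        have := h1 a
        rwa [lift_repr] at this) s r e hne
      obtain ⟨he1, h3⟩ := h2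
      have h4 := h3 (Wr.mk _ (1 : F) (0 : ℕ → F)) (Wr.mk _ (0 : F) fun _ => (1 : F))
      rcases Nat.exists_eq_succ_of_ne_zero (n := e) (by omega) with ⟨k, rfl⟩
      rcases k with _ | k
      · have h5 := congrFun (congrArg Wr.snd h4) 0
        exact one_ne_zero h5
      · have h5 : (it F (Wr.mk (shift F n) (1 : F) (0 : ℕ → F)) (k + 1)
            (Wr.mk _ (0 : F) fun _ => (1 : F))).snd 0 = 0 := congrFun (congrArg Wr.snd h4) 0
        rw [Wr.snd_it, Pi.smul_apply, shift_pow, if_pos (by omega), Wr.fst_mk, Wr.fst_mk,
          Wr.snd_mk, Wr.snd_mk] at h5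
        simp at h5
    · intro w hw hlt
      have := hc w hw
      omega
  have hW' := (hV _).2 hW
  -- but it is not nilpotent
  let x : Wr F F LinearMap.id := Wr.mk _ (1 : F) (0 : F)
  let y : Wr F F LinearMap.id := Wr.mk _ (0 : F) (1 : F)
  have hword : ∀ k : ℕ, ∃ w : FreeMagma ℕ, w.length = k + 1 ∧
      ev (fun i => if i = 0 then x else y) w = y := by
    intro k
    induction k with
    | zero => exact ⟨.of 1, rfl, rfl⟩
    | succ k ih =>
      obtain ⟨w, hw, hw'⟩ := ih
      refine ⟨.of 0 * w, ?_, ?_⟩
      · show 1 + w.length = _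
        omega
      · rw [ev_mul, hw']
        show ⁅x, y⁆ = y
        apply Wr.ext
        · rfl
        · rw [Wr.snd_lie]
          simp [x, y, Wr.fst_mk, Wr.snd_mk]
  obtain ⟨w, hw, hw'⟩ := hword n
  have h1 := hW'.2 w (by omega) (fun i => if i = 0 then x else y)
  rw [hw'] at h1
  have h2 := congrArg Wr.snd h1
  exact one_ne_zero h2

end Pool.Agent.Results.MP_b4a71d_al.NilpotentMetabelian
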